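import Mathlib
import Pool.Agent.J6H13.GS.Cnt

set_option autoImplicit false

/-!
# The question in random models of the primes with a growing sieve

The question is whether every odd `n` is of the form `x² + y² + z² + 4w²` with natural numbers such
that `2 ^ x + 2 ^ y + 2 ^ z + 1` is prime.  We consider random models of the primes with a growing sieve:
the integers are decided one after the other; no `m` with a prime factor `q ∈ P`, `q ≤ z(m)`, is chosen;
the conditional probability of choosing `m + 1` (without such prime factors) given the past is asymptotic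
to `W / log m`, `W = ∏ (1 - 1/q)⁻¹` over the primes `q ∈ P`, `q ≤ z(m + 1)`.  Here `P` is any set of primes
and `z` any function with `z(m) ≤ c (log log m)²`.  No independence and no rate is assumed.

For ALL `n` the number of quadruples is asymptotic to its expected value, up to an error
`O((log n)³)`.  It is at least `n ^ (1/2 - ε)` for all large odd `n` for which no prime in `P` is
exceptional, where a prime `q` is exceptional only if the order of `2` modulo `q` is divisible by the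
square of a prime `l ≥ 5` with `l ∣ 9n - 8` (or `3n - 8`), or `q = 41`, `113` for `n` in certain residue
classes.  So for ALL large odd `n` if `P` contains no such primes, and for `≫ X / log log X` of the
`n ≤ X` if `P` is the set of all primes.

The lower bound for the expected number uses the theorems of the starting project `SquareOrders`
(`Pool.Agent.N719.SP`), the law uses the martingale engine `Pool.Agent.R494.SPL`.
-/

open MeasureTheory Filter
open scoped Topology

namespace Pool.Agent.Results.MP_f6c7cf_nt.GrowingSieveModels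

/-- the quadruples of natural numbers with `n = x² + y² + z² + 4w²` -/
def four (n : ℕ) : Set (ℕ × ℕ × ℕ × ℕ) :=
  {v | n = v.1 ^ 2 + v.2.1 ^ 2 + v.2.2.1 ^ 2 + 4 * v.2.2.2 ^ 2}

/-- the value `2 ^ x + 2 ^ y + 2 ^ z + 1` -/
def form (v : ℕ × ℕ × ℕ × ℕ) : ℕ := 2 ^ v.1 + 2 ^ v.2.1 + 2 ^ v.2.2.1 + 1

/-- the number of quadruples with `n = x² + y² + z² + 4w²` for which `2 ^ x + 2 ^ y + 2 ^ z + 1` belongs
to `S` -/
noncomputable def R (S : Set ℕ) (n : ℕ) : ℕ := {v | v ∈ four n ∧ form v ∈ S}.ncard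

/-- `m` has no prime factor `q ∈ P`, `q ≤ z m` -/
def Rough (P : Set ℕ) (z : ℕ → ℕ) (m : ℕ) : Prop := ∀ q ∈ P, q.Prime → q ≤ z m → ¬ q ∣ m

open Classical in
/-- `∏ (1 - 1/q)⁻¹` over the primes `q ≤ x` in `P` -/
noncomputable def W (P : Set ℕ) (x : ℕ) : ℝ :=
  ∏ q ∈ (Finset.Icc 1 x).filter (fun q => q.Prime ∧ q ∈ P), (1 - (q : ℝ)⁻¹)⁻¹

open Classical in
/-- the density of the model at `m` -/
noncomputable def rho (P : Set ℕ) (z : ℕ → ℕ) (m : ℕ) : ℝ :=
  if Rough P z m then W P (z m) / Real.log m else 0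

/-- the expected number: the sum of the densities at `2 ^ x + 2 ^ y + 2 ^ z + 1` over all quadruples with
`n = x² + y² + z² + 4w²` -/
noncomputable def E (P : Set ℕ) (z : ℕ → ℕ) (n : ℕ) : ℝ := ∑ᶠ v ∈ four n, rho P z (form v)

/-- a sequential random model of the primes sieved by the primes `q ∈ P`, `q ≤ z(m)` -/
structure IsModel {Ω : Type} [mΩ : MeasurableSpace Ω] (μ : Measure Ω) (ℱ : Filtration ℕ mΩ)
    (S : ℕ → Set Ω) (P : Set ℕ) (z : ℕ → ℕ) : Prop where
  /-- whether `n` is chosen is known at the time `n` -/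
  adapted : ∀ n, MeasurableSet[ℱ n] (S n)
  /-- no `n` with a prime factor `q ∈ P`, `q ≤ z n`, is chosen -/
  sieved : ∀ n, ¬ Rough P z n → S n = ∅
  /-- the conditional probability of `S (n + 1)` given `ℱ n` is asymptotic to `W P (z (n + 1)) / log n`
  along the `n` with `Rough P z (n + 1)` -/
  density : ∀ᵐ ω ∂μ, Tendsto (fun n : ℕ =>
    (μ[(S (n + 1)).indicator (fun _ => (1 : ℝ)) | ℱ n]) ω * Real.log n / W P (z (n + 1)))
    (atTop ⊓ 𝓟 {n : ℕ | Rough P z (n + 1)}) (𝓝 1)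

/-- the exceptional primes -/
def Exceptional (n q : ℕ) : Prop :=
  (∃ l : ℕ, l.Prime ∧ 5 ≤ l ∧ l ^ 2 ∣ orderOf (2 : ZMod q) ∧
    ((n % 4 = 1 ∧ l % 4 = 3 ∧ (l : ℤ) ∣ 9 * n - 8) ∨ (n % 4 = 3 ∧ l % 3 = 2 ∧ (l : ℤ) ∣ 3 * n - 8))) ∨
  ((n % 4 = 1 ∧ n % 7 = 4 ∧ q = 113) ∨ (n % 4 = 3 ∧ n % 5 = 1 ∧ q = 41))

/-- no odd prime `q ≤ y` in `P` is exceptional for the odd number `n` -/
def Regular (P : Set ℕ) (y : ℝ) (n : ℕ) : Prop :=
  Odd n ∧ ∀ q ∈ P, q.Prime → q ≠ 2 → (q : ℝ) ≤ y → ¬ Exceptional n q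

/-- no square of a prime between `c log n` and `(log n)²` divides `n` -/
def NoSquare (c : ℝ) (n : ℕ) : Prop :=
  ∀ l : ℕ, l.Prime → c * Real.log n < l → (l : ℝ) ≤ (Real.log n) ^ 2 → ¬ l ^ 2 ∣ n

/-- `t log t / log log t` -/
noncomputable def g (t : ℝ) : ℝ := t * Real.log t / Real.log (Real.log t)

open Pool.Agent.R494.SPL

lemma four_eq (n : ℕ) : four n = ((quad3 n : Finset (ℕ × ℕ × ℕ × ℕ)) : Set (ℕ × ℕ × ℕ × ℕ)) := by
  ext v
  rw [Finset.mem_coe, mem_quad3]
  rfl

lemma E_eq (P : Set ℕ) (z : ℕ → ℕ) (n : ℕ) :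
    E P z n = ∑ v ∈ quad3 n, Pool.Agent.J6H13.GS.rho P z (val3 v) := by
  unfold E
  rw [four_eq, finsum_mem_coe_finset]
  rfl

lemma R_eq {Ω : Type} {A : ℕ → Set Ω} (ω : Ω) (n : ℕ) :
    (R {k : ℕ | ω ∈ A k} n : ℝ) = ∑ v ∈ quad3 n, Pool.Agent.R528.RM.In A (val3 v) ω := by
  classical
  have h0 : {v | v ∈ four n ∧ form v ∈ {k : ℕ | ω ∈ A k}} =
      (((quad3 n).filter (fun v => ω ∈ A (val3 v)) : Finset (ℕ × ℕ × ℕ × ℕ)) : Set (ℕ × ℕ × ℕ × ℕ)) := by
    ext v
    rw [Set.mem_ofPred_eq, four_eq, Finset.mem_coe, Finset.mem_coe, Finset.mem_filter]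
    rfl
  unfold R
  rw [h0, Set.ncard_coe_finset, Finset.card_filter]
  push_cast
  refine Finset.sum_congr rfl fun v _ => ?_
  unfold Pool.Agent.R528.RM.In
  by_cases h : ω ∈ A (val3 v)
  · simp [h]
  · simp [h]

/-- For every `ε > 0` there is `c > 0` such that for all sets `P` of primes and all functions `z` with
`z(n) ≤ c (log log n)²` for large `n`:
(1) for all large odd `n` which are regular with respect to the primes `q ≤ c (log n)²` in `P` and not
divisible by the square of a prime between `c log n` and `(log n)²`, the expected number `E P z n` is at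
least `n ^ (1/2 - ε)`; if even `z(n) ≤ c g (log log n)` this holds for all large odd `n` which are regular
with respect to the primes `q ≤ c g (log n)` in `P`.
(2) In every model the number `R(n)` of the quadruples with a chosen value satisfies almost surely, for
every `η > 0`, `|R(n) - E P z n| ≤ η E P z n + K (log n)³` for all large `n`, with some `K`.
(3) In every model, almost surely: `R(n) / E P z n → 1` and `R(n) ≥ n ^ (1/2 - ε)` along the `n` in (1).
Moreover
(4) All odd `n` are regular if `P` contains no prime `q` for which the order of `2` is divisible by the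
square of a prime `l ≥ 5`, and neither `41` nor `113`.
(5) If `P` is the set of all numbers, the `n` in the first case of (1) have at least
`κ X / log log X` elements up to `X` (`c ≤ 1/64`). -/
theorem result :
    (∀ ε : ℝ, 0 < ε → ∃ c : ℝ, 0 < c ∧ c ≤ 1 / 64 ∧ ∀ (P : Set ℕ) (z : ℕ → ℕ) (G : Set ℕ),
      ((∀ᶠ n : ℕ in atTop, (z n : ℝ) ≤ c * Real.log (Real.log n) ^ 2) ∧
          G = {n : ℕ | Regular P (c * Real.log n ^ 2) n ∧ NoSquare c n} ∨
        (∀ᶠ n : ℕ in atTop, (z n : ℝ) ≤ c * g (Real.log (Real.log n))) ∧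
          G = {n : ℕ | Regular P (c * g (Real.log n)) n}) →
      (∀ᶠ n : ℕ in atTop, n ∈ G → (n : ℝ) ^ (1 / 2 - ε) ≤ E P z n) ∧
      ∀ {Ω : Type} [mΩ : MeasurableSpace Ω] (μ : Measure Ω) [IsProbabilityMeasure μ]
        (ℱ : Filtration ℕ mΩ) (S : ℕ → Set Ω), IsModel μ ℱ S P z →
        (∀ᵐ ω ∂μ, ∀ η : ℝ, 0 < η → ∃ K : ℝ, ∀ᶠ n : ℕ in atTop,
          |(R {k | ω ∈ S k} n : ℝ) - E P z n| ≤ η * E P z n + K * Real.log n ^ 3) ∧
        (∀ᵐ ω ∂μ, Tendsto (fun n : ℕ => (R {k | ω ∈ S k} n : ℝ) / E P z n) (atTop ⊓ 𝓟 G) (𝓝 1)) ∧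
        (∀ᵐ ω ∂μ, ∀ᶠ n : ℕ in atTop, n ∈ G → (n : ℝ) ^ (1 / 2 - ε) ≤ R {k | ω ∈ S k} n)) ∧
    (∀ P : Set ℕ, (∀ q ∈ P, q.Prime → q ≠ 2 → q ≠ 41 ∧ q ≠ 113 ∧
        ∀ l : ℕ, l.Prime → 5 ≤ l → ¬ l ^ 2 ∣ orderOf (2 : ZMod q)) →
      ∀ (y : ℝ) (n : ℕ), Odd n → Regular P y n) ∧
    (∃ κ : ℝ, 0 < κ ∧ ∀ c : ℝ, 0 < c → c ≤ 1 / 64 → ∀ᶠ X : ℕ in atTop,
      κ * (X / Real.log (Real.log X)) ≤ ({n : ℕ | n ≤ X ∧
        Regular Set.univ (c * Real.log n ^ 2) n ∧ NoSquare c n}.ncard : ℝ)) := by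
  classical
  refine ⟨?_, ?_, Pool.Agent.J6H13.GS.many_regular⟩
  · intro ε hε
    set e : ℝ := min ε (1 / 4) with he
    have he0 : 0 < e := lt_min hε (by norm_num)
    have he1 : e ≤ 1 / 4 := min_le_right _ _
    obtain ⟨c₁, hc₁, hA⟩ := Pool.Agent.J6H13.GS.many3A (e / 2) (by positivity) (by linarith)
    obtain ⟨c₂, hc₂, hB⟩ := Pool.Agent.J6H13.GS.many3B (e / 2) (by positivity) (by linarith)
    refine ⟨min (min c₁ c₂) (1 / 64), lt_min (lt_min hc₁ hc₂) (by norm_num), min_le_right _ _, ?_⟩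
    set c : ℝ := min (min c₁ c₂) (1 / 64) with hc
    have hc0 : 0 < c := lt_min (lt_min hc₁ hc₂) (by norm_num)
    have hcc₁ : c ≤ c₁ := (min_le_left _ _).trans (min_le_left _ _)
    have hcc₂ : c ≤ c₂ := (min_le_left _ _).trans (min_le_right _ _)
    intro P z G hG
    -- the sieve is short in both cases
    have hz2 : ∃ C : ℝ, ∀ᶠ n : ℕ in atTop, (z n : ℝ) ≤ C * Real.log (Real.log n) ^ 2 := by
      rcases hG with ⟨h, -⟩ | ⟨h, -⟩
      · exact ⟨c, h⟩
      · refine ⟨c, ?_⟩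
        have hll : ∀ᶠ n : ℕ in atTop, Real.exp (Real.exp 1) ≤ Real.log (Real.log (n : ℝ)) :=
          (Real.tendsto_log_atTop.comp Pool.Agent.N233.GM.logN).eventually_ge_atTop _
        filter_upwards [h, hll] with n h1 h2
        refine h1.trans (mul_le_mul_of_nonneg_left ?_ hc0.le)
        set t : ℝ := Real.log (Real.log (n : ℝ)) with ht
        have g0 : 2 < Real.exp 1 := by
          have := Real.exp_one_gt_d9
          linarith
        have g1 : 0 < t := lt_of_lt_of_le (Real.exp_pos _) h2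
        have g2 : Real.exp 1 ≤ Real.log t := by rwa [Real.le_log_iff_exp_le g1]
        have g3 : 1 ≤ Real.log (Real.log t) := by rwa [Real.le_log_iff_exp_le (by linarith)]
        have g4 : Real.log t ≤ t := by
          have := Real.log_le_sub_one_of_pos g1
          linarith
        unfold g
        rw [div_le_iff₀ (by linarith)]
        calc t * Real.log t ≤ t * t := by gcongr
          _ = t ^ 2 * 1 := by ring
          _ ≤ t ^ 2 * Real.log (Real.log t) := by gcongr
    obtain ⟨C, hzC⟩ := hz2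
    have hV := Pool.Agent.J6H13.GS.short P C z hzC
    have hmany : ∀ᶠ n : ℕ in atTop, n ∈ G → ∃ T ⊆ quad3 n, (n : ℝ) ^ (1 - e / 2) ≤ (T.card : ℝ) ∧
        ∀ v ∈ T, n ≤ val3 v ∧ Pool.Agent.J6H13.GS.Rough P z (val3 v) := by
      rcases hG with ⟨h, rfl⟩ | ⟨h, rfl⟩
      · filter_upwards [hB c hc0 hcc₂ P z h] with n h1 h2
        exact h1 h2.1 h2.2
      · filter_upwards [hA c hc0 hcc₁ P z h] with n h1 h2
        exact h1 h2
    have hElow : ∀ᶠ n : ℕ in atTop, n ∈ G → 2 * (n : ℝ) ^ (1 / 2 - e) ≤ E P z n := by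
      filter_upwards [hmany, Pool.Agent.J6H13.GS.low3 e he0] with n h1 h2 hn
      rw [E_eq]
      exact h2 P z (h1 hn)
    have hpow : ∀ᶠ n : ℕ in atTop, (n : ℝ) ^ (1 / 2 - ε) ≤ (n : ℝ) ^ (1 / 2 - e) := by
      filter_upwards [eventually_ge_atTop 1] with n hn
      exact Real.rpow_le_rpow_of_exponent_le (by exact_mod_cast hn) (by
        have := min_le_left ε (1 / 4 : ℝ)
        linarith)
    refine ⟨?_, ?_⟩
    · filter_upwards [hElow, hpow, eventually_ge_atTop 1] with n h1 h2 h3 hn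
      have h4 : (0 : ℝ) < (n : ℝ) ^ (1 / 2 - e) := Real.rpow_pos_of_pos (by exact_mod_cast h3) _
      linarith [h1 hn]
    intro Ω mΩ μ hμ ℱ S hS
    have hprof := Pool.Agent.J6H13.GS.profile (μ := μ) (ℱ := ℱ) (A := S) P z hV hS.sieved hS.density
    have hlaw := Pool.Agent.J6H13.GS.law3g (μ := μ) (ℱ := ℱ) (A := S) hS.adapted P z hprof
    obtain ⟨C', hC', hdiff⟩ := Pool.Agent.J6H13.GS.rho_diff P z hV
    have key : ∀ᵐ ω ∂μ, ∀ η : ℝ, 0 < η → ∃ K : ℝ, ∀ᶠ n : ℕ in atTop,
        |(R {k | ω ∈ S k} n : ℝ) - E P z n| ≤ η * E P z n + K * Real.log n ^ 3 := by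
      filter_upwards [hlaw] with ω hω η hη
      obtain ⟨K, hK⟩ := hω η hη
      refine ⟨K + (1 + η) * C', ?_⟩
      filter_upwards [hK, hdiff] with n h1 h2
      rw [E_eq, R_eq]
      obtain ⟨a1, a2⟩ := abs_le.1 h1
      obtain ⟨b1, b2⟩ := abs_le.1 h2
      rw [abs_le]
      constructor <;> nlinarith
    -- the error is small along `G`
    have hsmall : ∀ K δ : ℝ, 0 < δ → ∀ᶠ n : ℕ in atTop, n ∈ G → K * Real.log n ^ 3 ≤ δ * E P z n := by
      intro K δ hδ
      have e3 := (isLittleO_log_rpow_rpow_atTop (3 : ℝ) (show (0 : ℝ) < 1 / 4 by norm_num)).bound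
        (show (0 : ℝ) < δ / (|K| + 1) by positivity)
      filter_upwards [tendsto_natCast_atTop_atTop.eventually e3, hElow, eventually_ge_atTop 1] with n h1 h2 h3 hn
      have hn1 : (1 : ℝ) ≤ n := by exact_mod_cast h3
      have hn0 : (0 : ℝ) < n := by linarith
      have hl : 0 ≤ Real.log (n : ℝ) := Real.log_nonneg hn1
      rw [Real.norm_eq_abs, Real.norm_eq_abs, abs_of_nonneg (Real.rpow_nonneg hl _),
        abs_of_nonneg (Real.rpow_nonneg hn0.le _)] at h1
      have e5 : Real.log n ^ (3 : ℝ) = Real.log n ^ (3 : ℕ) := by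
        rw [← Real.rpow_natCast]; norm_num
      rw [e5] at h1
      have h4 := h2 hn
      have h5 : (n : ℝ) ^ (1 / 4 : ℝ) ≤ (n : ℝ) ^ (1 / 2 - e) :=
        Real.rpow_le_rpow_of_exponent_le hn1 (by linarith)
      have h6 : 0 ≤ (n : ℝ) ^ (1 / 4 : ℝ) := by positivity
      calc K * Real.log n ^ 3 ≤ (|K| + 1) * Real.log n ^ 3 := by
            apply mul_le_mul_of_nonneg_right _ (by positivity)
            have := le_abs_self K
            linarith
        _ ≤ (|K| + 1) * (δ / (|K| + 1) * (n : ℝ) ^ (1 / 4 : ℝ)) := by gcongr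
        _ = δ * (n : ℝ) ^ (1 / 4 : ℝ) := by field_simp
        _ ≤ δ * E P z n := by
            apply mul_le_mul_of_nonneg_left _ hδ.le
            linarith
    have key2 : ∀ᵐ ω ∂μ, ∀ η : ℝ, 0 < η → ∀ᶠ n : ℕ in atTop, n ∈ G →
        |(R {k | ω ∈ S k} n : ℝ) - E P z n| ≤ η * E P z n := by
      filter_upwards [key] with ω hω η hη
      obtain ⟨K, hK⟩ := hω (η / 2) (by positivity)
      filter_upwards [hK, hsmall K (η / 2) (by positivity)] with n h1 h2 hn
      have := h2 hn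
      linarith
    refine ⟨key, ?_, ?_⟩
    · filter_upwards [key2] with ω hω
      rw [Metric.tendsto_nhds]
      intro η hη
      rw [eventually_inf_principal]
      filter_upwards [hω (η / 2) (by positivity), hElow, eventually_ge_atTop 1] with n h1 h2 h3 hn
      have h4 : (0 : ℝ) < (n : ℝ) ^ (1 / 2 - e) := Real.rpow_pos_of_pos (by exact_mod_cast h3) _
      have h5 : 0 < E P z n := by linarith [h2 hn]
      rw [Real.dist_eq, show (R {k | ω ∈ S k} n : ℝ) / E P z n - 1 =
        ((R {k | ω ∈ S k} n : ℝ) - E P z n) / E P z n by field_simp, abs_div, abs_of_pos h5,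
        div_lt_iff₀ h5]
      have := h1 hn
      nlinarith
    · filter_upwards [key2] with ω hω
      filter_upwards [hω (1 / 2) (by norm_num), hElow, hpow] with n h1 h2 h5 hn
      have h3 := (abs_le.1 (h1 hn)).1
      have h4 := h2 hn
      linarith
  · intro P hP y n hn
    refine ⟨hn, fun q hq hqp hq2 _ hex => ?_⟩
    obtain ⟨h1, h2, h3⟩ := hP q hq hqp hq2
    rcases hex with ⟨l, hl, hl5, hlo, -⟩ | ⟨-, -, h⟩ | ⟨-, -, h⟩
    · exact h3 l hl hl5 hlo
    · exact h2 h
    · exact h1 h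

end Pool.Agent.Results.MP_f6c7cf_nt.GrowingSieveModels
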